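import Mathlib
import Pool.Agent.Run7.h18.MK.Ach

set_option autoImplicit false

/-!
# Primes `(2 q n)^2 + a` and `((2 n + 1) q)^2 + a`, `q` prime, for almost all constants `a`

Uses project MK of this run (the one-shift law for short shifts, `S_LAW'`), the polynomial Weyl sums
`H373R2.NB.IW_all` and the sifted counts `H373R2.T7.sys_count` of the starting files.
-/

open Polynomial Finset

namespace Pool.Agent.Results.MP_4b1228_nt.AlmostAllConstants

/-- The number of the residues `r` modulo `p` for which `p` divides `a + f(r)`. -/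
noncomputable def rootCount (f : ℤ[X]) (a : ℕ) (p : ℕ) : ℕ :=
  ((range p).filter (fun r : ℕ => (p : ℤ) ∣ (a : ℤ) + f.eval (r : ℤ))).card

/-- The expected density: the product of `(1 - rootCount / p) / (1 - 1 / p)` over the primes `p ≤ z`. -/
noncomputable def density (f : ℤ[X]) (a : ℕ) (z : ℕ) : ℝ :=
  ∏ p ∈ (Icc 1 z).filter Nat.Prime, (1 - (rootCount f a p : ℝ) / p) / (1 - 1 / (p : ℝ))

/-- The sum of the logarithms of the primes `a + f(q n)`, `q` in `P`, `n ≤ M`. -/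
noncomputable def primeSum (f : ℤ[X]) (a : ℕ) (P : Finset ℕ) (M : ℕ) : ℝ :=
  ∑ q ∈ P, ∑ n ∈ (Icc 1 M).filter (fun n : ℕ => ((a : ℤ) + f.eval (((q * n : ℕ) : ℤ))).toNat.Prime),
    Real.log (((a : ℤ) + f.eval (((q * n : ℕ) : ℤ)) : ℤ) : ℝ)

/-- Let `d ≥ 1`, `T`, `U` be integers and `δ > 0`. There are `C` and `B` such that for every `E` and all large `N`, with
`L = log N`, for every `z` between `L ^ B` and `L ^ E`, all integers `Q` and `M` that are at least `N ^ δ` and EVERY set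
`P` of primes `q` with `Q < q ≤ 2 Q` there is a set of at most `N / L ^ U` integers such that all other integers `a ≤ N`
have the following properties.

(1) For ALL integer polynomials `f` with `1 ≤ deg f ≤ d`, coefficients at most `L ^ T` in absolute value and
`N ^ (1/3) L ^ C ≤ (Q M) ^ (deg f) ≤ N / L ^ C` the numbers `a + f(q n)`, `q` in `P`, `n ≤ M`, are positive, the pairs
`(q, n)` for which `a + f(q n)` is prime, counted with its logarithm, number `|P| M * density + O(Q M / L ^ U)`, and if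
no prime divides all values of `a + f`, then the density is at least `1 / L ^ (d + 1)`, and if moreover
`|P| ≥ Q / L ^ S` for some `S ≤ U - d - 2`, then some `a + f(q n)` with `q` in `P` and `2 ≤ n ≤ M` is prime.

(2) If `d ≥ 2`, `T ≥ 1`, `N ^ (1/3) L ^ C ≤ (Q M) ^ 2 ≤ N / L ^ C` and `|P| ≥ Q / L ^ S` for some `S ≤ U - d - 2`, then
for odd `a` some `(2 q n) ^ 2 + a` with `q` in `P` and `2 ≤ n ≤ M` is prime, and for even `a` some
`((2 n + 1) q) ^ 2 + a` with `q` in `P`, `n ≥ 1`, `2 n + 1 ≤ M` is prime. -/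
theorem result (d T U : ℕ) (hd : 1 ≤ d) (δ : ℝ) (hδ : 0 < δ) : ∃ C B : ℕ, ∀ E : ℕ, ∃ N₀ : ℕ, ∀ N : ℕ, N₀ ≤ N →
    ∀ z : ℕ, Real.log N ^ B ≤ z → (z : ℝ) ≤ Real.log N ^ E → ∀ Q M : ℕ, (N : ℝ) ^ δ ≤ Q → (N : ℝ) ^ δ ≤ M →
    ∀ P : Finset ℕ, (∀ q ∈ P, q.Prime ∧ Q < q ∧ q ≤ 2 * Q) →
    ∃ Ex : Finset ℕ, (Ex.card : ℝ) ≤ N / Real.log N ^ U ∧ ∀ a : ℕ, 1 ≤ a → a ≤ N → a ∉ Ex →
      (∀ f : ℤ[X], 1 ≤ f.natDegree → f.natDegree ≤ d → (∀ i, |((f.coeff i : ℤ) : ℝ)| ≤ Real.log N ^ T) →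
        (N : ℝ) ^ (1 / 3 : ℝ) * Real.log N ^ C ≤ ((Q : ℝ) * M) ^ f.natDegree →
        ((Q : ℝ) * M) ^ f.natDegree * Real.log N ^ C ≤ N →
        (∀ q ∈ P, ∀ n ∈ Icc 1 M, 1 ≤ (a : ℤ) + f.eval (((q * n : ℕ) : ℤ))) ∧
        |primeSum f a P M - P.card * M * density f a z| ≤ Q * M / Real.log N ^ U ∧
        ((∀ p : ℕ, p.Prime → ∃ m : ℤ, ¬ (p : ℤ) ∣ (a : ℤ) + f.eval m) →
          1 / Real.log N ^ (d + 1) ≤ density f a z ∧
          ∀ S : ℕ, d + S + 2 ≤ U → (Q : ℝ) ≤ P.card * Real.log N ^ S →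
            ∃ q ∈ P, ∃ n ∈ Icc 2 M, ((a : ℤ) + f.eval (((q * n : ℕ) : ℤ))).toNat.Prime)) ∧
      (2 ≤ d → 1 ≤ T → (N : ℝ) ^ (1 / 3 : ℝ) * Real.log N ^ C ≤ ((Q : ℝ) * M) ^ 2 →
        ((Q : ℝ) * M) ^ 2 * Real.log N ^ C ≤ N → ∀ S : ℕ, d + S + 2 ≤ U → (Q : ℝ) ≤ P.card * Real.log N ^ S →
        (Odd a → ∃ q ∈ P, ∃ n ∈ Icc 2 M, ((2 * q * n) ^ 2 + a).Prime) ∧
        (Even a → ∃ q ∈ P, ∃ n : ℕ, 1 ≤ n ∧ 2 * n + 1 ≤ M ∧ (((2 * n + 1) * q) ^ 2 + a).Prime)) := by
  classical
  obtain ⟨C, B, h⟩ := Pool.Agent.Run7.h18.MK.ach d T U hd δ hδ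
  refine ⟨C + T + 2, B, fun E => ?_⟩
  obtain ⟨N₁, h⟩ := h E
  obtain ⟨N₂, h2⟩ := Pool.Agent.Run7.h18.MK.ev ⌈((U + 2 : ℕ) : ℝ) / δ⌉₊ (8 + ((d : ℝ) + 1) * 2 ^ d)
  refine ⟨N₁ + N₂ + 2, fun N hN z hz1 hz2 Q M hQ hM P hP => ?_⟩
  obtain ⟨Ex, hE1, hE2⟩ := h N (by omega) z hz1 hz2 Q M hQ hM P hP
  obtain ⟨hLd', hLp⟩ := h2 N (by omega)
  have hd0 : (0 : ℝ) ≤ ((d : ℝ) + 1) * 2 ^ d := by positivity
  have hL8 : 8 ≤ Real.log (N : ℝ) := by linarith
  have hLd : ((d : ℝ) + 1) * 2 ^ d ≤ Real.log (N : ℝ) := by linarith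
  have hL0 : 0 < Real.log (N : ℝ) := by linarith
  have hL1 : 1 ≤ Real.log (N : ℝ) := by linarith
  have hNδ : Real.log (N : ℝ) ^ (U + 2) ≤ (N : ℝ) ^ δ := Pool.Agent.Run7.h18.MK.rpow_ge_pow hδ (U + 2) hL1 hLp
  have hML : Real.log (N : ℝ) ^ (U + 2) ≤ M := hNδ.trans hM
  have hQL : Real.log (N : ℝ) ^ (U + 2) ≤ Q := hNδ.trans hQ
  have hpow1 : (1 : ℝ) ≤ Real.log (N : ℝ) ^ (U + 2) := one_le_pow₀ hL1
  have hQ0 : (0 : ℝ) < Q := by linarith
  have hM0 : (0 : ℝ) < M := by linarith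
  have main : ∀ a : ℕ, 1 ≤ a → a ≤ N → a ∉ Ex →
      (∀ f : ℤ[X], 1 ≤ f.natDegree → f.natDegree ≤ d → (∀ i, |((f.coeff i : ℤ) : ℝ)| ≤ Real.log N ^ T) →
        (N : ℝ) ^ (1 / 3 : ℝ) * Real.log N ^ (C + T + 2) ≤ ((Q : ℝ) * M) ^ f.natDegree →
        ((Q : ℝ) * M) ^ f.natDegree * Real.log N ^ (C + T + 2) ≤ N →
        (∀ q ∈ P, ∀ n ∈ Icc 1 M, 1 ≤ (a : ℤ) + f.eval (((q * n : ℕ) : ℤ))) ∧
        |primeSum f a P M - P.card * M * density f a z| ≤ Q * M / Real.log N ^ U ∧
        ((∀ p : ℕ, p.Prime → ∃ m : ℤ, ¬ (p : ℤ) ∣ (a : ℤ) + f.eval m) →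
          1 / Real.log N ^ (d + 1) ≤ density f a z ∧
          ∀ S : ℕ, d + S + 2 ≤ U → (Q : ℝ) ≤ P.card * Real.log N ^ S →
            ∃ q ∈ P, ∃ n ∈ Icc 2 M, ((a : ℤ) + f.eval (((q * n : ℕ) : ℤ))).toNat.Prime)) := by
    intro a ha1 ha2 haE f hf1 hf2 hcf hx1 hx2
    have hCC : Real.log (N : ℝ) ^ C ≤ Real.log (N : ℝ) ^ (C + T + 2) := pow_le_pow_right₀ hL1 (by omega)
    have hx1' : (N : ℝ) ^ (1 / 3 : ℝ) * Real.log N ^ C ≤ ((Q : ℝ) * M) ^ f.natDegree :=
      (mul_le_mul_of_nonneg_left hCC (by positivity)).trans hx1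
    have hx2' : ((Q : ℝ) * M) ^ f.natDegree * Real.log N ^ C ≤ N :=
      (mul_le_mul_of_nonneg_left hCC (by positivity)).trans hx2
    obtain ⟨a1, a2, a3⟩ := hE2 a (mem_Icc.2 ⟨ha1, ha2⟩) haE f hf1 hf2 hcf hx1' hx2'
    have hroot : ∀ p : ℕ, rootCount f a p = Pool.Agent.H373R2.T7.nuB (Pool.Agent.Run7.h18.MK.Rt f a) p := by
      intro p
      unfold rootCount Pool.Agent.H373R2.T7.nuB Pool.Agent.Run7.h18.MK.Rt
      congr!
    have hden : density f a z = Pool.Agent.Run7.h18.MK.Sg f a z := by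
      unfold density Pool.Agent.Run7.h18.MK.Sg Pool.Agent.H373R2.T7.Vz Pool.Agent.H373R2.T7.pz
      rw [prod_div_distrib, div_eq_inv_mul]
      congr 1
      exact prod_congr rfl fun p _ => by rw [hroot]
    have hterm : ∀ q ∈ P, ∀ n ∈ Icc 1 M, Pool.Agent.R460.SQ.thp ((a : ℤ) + f.eval (((q * n : ℕ) : ℤ))).toNat =
        if ((a : ℤ) + f.eval (((q * n : ℕ) : ℤ))).toNat.Prime then
          Real.log (((a : ℤ) + f.eval (((q * n : ℕ) : ℤ)) : ℤ) : ℝ) else 0 := by
      intro q hq n hn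
      unfold Pool.Agent.R460.SQ.thp
      have h5 := a1 q hq n hn
      have h6 : ((((a : ℤ) + f.eval (((q * n : ℕ) : ℤ))).toNat : ℕ) : ℝ) =
          (((a : ℤ) + f.eval (((q * n : ℕ) : ℤ)) : ℤ) : ℝ) := by
        rw [← Int.cast_natCast, Int.toNat_of_nonneg (by omega)]
      rw [h6]
    have hsum : primeSum f a P M = ∑ q ∈ P, ∑ n ∈ Icc 1 M,
        Pool.Agent.R460.SQ.thp ((a : ℤ) + f.eval (((q * n : ℕ) : ℤ))).toNat := by
      unfold primeSum
      refine sum_congr rfl fun q hq => ?_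
      rw [sum_filter]
      refine sum_congr rfl fun n hn => ?_
      rw [hterm q hq n hn]
    have hmain : |primeSum f a P M - P.card * M * density f a z| ≤ Q * M / Real.log N ^ U := by
      rw [hden, hsum]
      exact a3
    refine ⟨a1, hmain, fun hfix => ?_⟩
    have hlow : 1 / Real.log N ^ (d + 1) ≤ density f a z := by
      rw [hden]
      exact a2 hfix
    refine ⟨hlow, fun S hS hPS => ?_⟩
    by_contra hcon
    push Not at hcon
    -- only the terms with n = 1 are left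
    have hup : primeSum f a P M ≤ ∑ q ∈ P, Real.log ((2 * N : ℕ) : ℝ) := by
      rw [hsum]
      refine sum_le_sum fun q hq => ?_
      have h1 : ∑ n ∈ Icc 1 M, Pool.Agent.R460.SQ.thp ((a : ℤ) + f.eval (((q * n : ℕ) : ℤ))).toNat =
          ∑ n ∈ (Icc 1 M).filter (fun n => n = 1), Pool.Agent.R460.SQ.thp ((a : ℤ) + f.eval (((q * n : ℕ) : ℤ))).toNat := by
        rw [sum_filter]
        refine sum_congr rfl fun n hn => ?_
        by_cases h1 : n = 1
        · rw [if_pos h1]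
        · rw [if_neg h1]
          unfold Pool.Agent.R460.SQ.thp
          rw [if_neg]
          apply hcon q hq n
          rw [mem_Icc] at hn ⊢
          omega
      rw [h1]
      have h2 : (Icc 1 M).filter (fun n => n = 1) ⊆ {1} := by
        intro n hn
        rw [mem_filter] at hn
        rw [mem_singleton]
        exact hn.2
      refine (sum_le_sum_of_subset_of_nonneg h2 fun _ _ _ => Pool.Agent.Run7.h18.MK.thp_nonneg _).trans ?_
      rw [sum_singleton]
      apply Pool.Agent.Run7.h18.MK.thp_le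
      obtain ⟨i1, i2, i3⟩ := hP q hq
      have hM1 : 1 ≤ M := by
        have : (1 : ℝ) ≤ M := by linarith
        exact_mod_cast this
      have h3 := Pool.Agent.Run7.h18.MK.eval_le f d hf2 (Real.log N ^ T) hcf (q * 1) (q * 1)
        (mem_Icc.2 ⟨by rw [mul_one]; exact i1.one_le, le_rfl⟩)
      have h4 := a1 q hq 1 (mem_Icc.2 ⟨le_rfl, hM1⟩)
      have h5 : (((q * 1 : ℕ) : ℝ)) ^ f.natDegree ≤ 2 ^ d * ((Q : ℝ) * M) ^ f.natDegree := by
        calc (((q * 1 : ℕ) : ℝ)) ^ f.natDegree ≤ (2 * ((Q : ℝ) * M)) ^ f.natDegree := by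
              apply pow_le_pow_left₀ (Nat.cast_nonneg _)
              rw [mul_one]
              have h6 : (q : ℝ) ≤ 2 * Q := by exact_mod_cast i3
              have h7 : (1 : ℝ) ≤ M := by exact_mod_cast hM1
              have h8 : (Q : ℝ) ≤ Q * M := le_mul_of_one_le_right hQ0.le h7
              linarith
          _ = 2 ^ f.natDegree * ((Q : ℝ) * M) ^ f.natDegree := mul_pow _ _ _
          _ ≤ _ := by
              apply mul_le_mul_of_nonneg_right _ (by positivity)
              exact pow_le_pow_right₀ (by norm_num) hf2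
      have h6 : |((f.eval (((q * 1 : ℕ) : ℤ)) : ℤ) : ℝ)| ≤ N := by
        refine h3.trans (le_trans ?_ hx2)
        calc ((d : ℝ) + 1) * Real.log N ^ T * (((q * 1 : ℕ) : ℝ)) ^ f.natDegree ≤
              ((d : ℝ) + 1) * Real.log N ^ T * (2 ^ d * ((Q : ℝ) * M) ^ f.natDegree) := by gcongr
          _ = (((d : ℝ) + 1) * 2 ^ d) * (((Q : ℝ) * M) ^ f.natDegree * Real.log N ^ T) := by ring
          _ ≤ Real.log N * (((Q : ℝ) * M) ^ f.natDegree * Real.log N ^ T) := by gcongr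
          _ = ((Q : ℝ) * M) ^ f.natDegree * Real.log N ^ (T + 1) := by ring
          _ ≤ _ := by
              apply mul_le_mul_of_nonneg_left _ (by positivity)
              exact pow_le_pow_right₀ hL1 (by omega)
      have h7 : f.eval (((q * 1 : ℕ) : ℤ)) ≤ (N : ℤ) := by
        have := (le_abs_self _).trans h6
        exact_mod_cast this
      omega
    have hPc : (P.card : ℝ) ≤ 2 * Q := by
      have h1 : P ⊆ Icc 1 (2 * Q) := by
        intro q hq
        obtain ⟨i1, i2, i3⟩ := hP q hq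
        exact mem_Icc.2 ⟨i1.one_le, i3⟩
      have h2 := card_le_card h1
      rw [Nat.card_Icc, Nat.add_sub_cancel] at h2
      exact_mod_cast h2
    have hup2 : primeSum f a P M ≤ 4 * Q * Real.log N := by
      refine hup.trans ?_
      rw [sum_const, nsmul_eq_mul]
      have h1 := Pool.Agent.Run7.h18.MK.log_two_N N (by omega)
      calc (P.card : ℝ) * Real.log ((2 * N : ℕ) : ℝ) ≤ (2 * Q) * (2 * Real.log N) := by
            apply mul_le_mul hPc h1 (Real.log_natCast_nonneg _) (by positivity)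
        _ = _ := by ring
    have hlow2 : (Q : ℝ) * M / Real.log N ^ (S + d + 1) ≤ P.card * M * density f a z := by
      calc (Q : ℝ) * M / Real.log N ^ (S + d + 1) ≤
            (P.card * Real.log N ^ S) * M / Real.log N ^ (S + d + 1) := by gcongr
        _ = P.card * M * (1 / Real.log N ^ (d + 1)) := by
            rw [show S + d + 1 = S + (d + 1) by ring, pow_add]
            field_simp
        _ ≤ _ := by gcongr
    have herr : (Q : ℝ) * M / Real.log N ^ U ≤ Q * M / Real.log N ^ (S + d + 1) / 2 := by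
      calc (Q : ℝ) * M / Real.log N ^ U ≤ Q * M / Real.log N ^ (S + d + 2) := by
            apply div_le_div_of_nonneg_left (by positivity) (by positivity)
            exact pow_le_pow_right₀ hL1 (by omega)
        _ = Q * M / Real.log N ^ (S + d + 1) / Real.log N := by
            rw [show S + d + 2 = (S + d + 1) + 1 by ring, pow_succ, div_div]
        _ ≤ _ := by
            apply div_le_div_of_nonneg_left (by positivity) (by norm_num)
            linarith
    have hbig : 4 * (Q : ℝ) * Real.log N < Q * M / Real.log N ^ (S + d + 1) / 2 := by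
      have h1 : Real.log (N : ℝ) ^ (S + d + 1) * Real.log N ^ 3 ≤ M := by
        rw [← pow_add]
        exact (pow_le_pow_right₀ hL1 (by omega)).trans hML
      have h2 : Real.log (N : ℝ) ^ 3 ≤ M / Real.log N ^ (S + d + 1) := by
        rw [le_div_iff₀ (by positivity)]
        linarith
      have h3 : (Q : ℝ) * M / Real.log N ^ (S + d + 1) = Q * (M / Real.log N ^ (S + d + 1)) := by ring
      have h4 : 8 * Real.log (N : ℝ) < Real.log N ^ 3 := by
        have h5 : (64 : ℝ) ≤ Real.log N ^ 2 := by nlinarith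
        have h6 : Real.log (N : ℝ) ^ 3 = Real.log N ^ 2 * Real.log N := by ring
        rw [h6]
        nlinarith
      rw [h3]
      have h5 : (Q : ℝ) * (8 * Real.log N) < Q * (M / Real.log N ^ (S + d + 1)) :=
        mul_lt_mul_of_pos_left (h4.trans_le h2) hQ0
      linarith
    have h9 := (abs_le.1 hmain).1
    linarith
  refine ⟨Ex, hE1, fun a ha1 ha2 haE => ⟨main a ha1 ha2 haE, fun hd2 hT hx1 hx2 S hS hPS => ⟨fun hodd => ?_, fun heven => ?_⟩⟩⟩
  · have hdeg : (Polynomial.C (4 : ℤ) * X ^ 2).natDegree = 2 := natDegree_C_mul_X_pow 2 4 (by norm_num)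
    have hLT : (4 : ℝ) ≤ Real.log N ^ T := by
      have : Real.log (N : ℝ) ≤ Real.log N ^ T := le_self_pow₀ hL1 (by omega)
      linarith
    have key := main a ha1 ha2 haE (Polynomial.C (4 : ℤ) * X ^ 2) (by rw [hdeg]; omega) (by rw [hdeg]; omega)
      (by
        intro i
        rw [coeff_C_mul, coeff_X_pow]
        split_ifs
        · norm_num
          linarith
        · norm_num
          positivity)
      (by rw [hdeg]; exact hx1) (by rw [hdeg]; exact hx2)
    obtain ⟨q, hq, n, hn, hpr⟩ := (key.2.2 (by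
      intro p hp
      by_contra hcon
      push Not at hcon
      have h0 := hcon 0
      have h1 := hcon 1
      have h2 := hcon 1
      simp only [eval_mul, eval_C, eval_pow, eval_X] at h0 h1
      norm_num at h0 h1
      have h3 : (p : ℤ) ∣ 4 := by
        have := dvd_sub h1 h0
        simpa using this
      have h4 : p ∣ 2 ^ 2 := by exact_mod_cast h3
      have h5 : p = 2 := (Nat.prime_dvd_prime_iff_eq hp Nat.prime_two).1 (hp.dvd_of_dvd_pow h4)
      have h6 : p ∣ a := by exact_mod_cast h0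
      rw [h5] at h6
      exact (Nat.not_even_iff_odd.2 hodd) (even_iff_two_dvd.2 h6))).2 S hS hPS
    refine ⟨q, hq, n, hn, ?_⟩
    have h7 : ((a : ℤ) + (Polynomial.C (4 : ℤ) * X ^ 2).eval (((q * n : ℕ) : ℤ))).toNat = (2 * q * n) ^ 2 + a := by
      have h8 : (a : ℤ) + (Polynomial.C (4 : ℤ) * X ^ 2).eval (((q * n : ℕ) : ℤ)) = (((2 * q * n) ^ 2 + a : ℕ) : ℤ) := by
        simp only [eval_mul, eval_C, eval_pow, eval_X]
        push_cast
        ring
      rw [h8, Int.toNat_natCast]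
    rwa [h7] at hpr
  · have hdeg : (X ^ 2 : ℤ[X]).natDegree = 2 := natDegree_X_pow 2
    have hLT : (1 : ℝ) ≤ Real.log N ^ T := one_le_pow₀ hL1
    have key := main a ha1 ha2 haE (X ^ 2 : ℤ[X]) (by rw [hdeg]; omega) (by rw [hdeg]; omega)
      (by
        intro i
        rw [coeff_X_pow]
        split_ifs
        · norm_num
          linarith
        · norm_num
          positivity)
      (by rw [hdeg]; exact hx1) (by rw [hdeg]; exact hx2)
    obtain ⟨q, hq, n, hn, hpr⟩ := (key.2.2 (by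
      intro p hp
      by_contra hcon
      push Not at hcon
      have h0 := hcon 0
      have h1 := hcon 1
      simp only [eval_pow, eval_X] at h0 h1
      norm_num at h0 h1
      have h3 : (p : ℤ) ∣ 1 := by
        have := dvd_sub h1 h0
        simpa using this
      have h4 : p ∣ 1 := by exact_mod_cast h3
      exact hp.one_lt.ne' (Nat.dvd_one.1 h4))).2 S hS hPS
    have h7 : ((a : ℤ) + (X ^ 2 : ℤ[X]).eval (((q * n : ℕ) : ℤ))).toNat = (n * q) ^ 2 + a := by
      have h8 : (a : ℤ) + (X ^ 2 : ℤ[X]).eval (((q * n : ℕ) : ℤ)) = (((n * q) ^ 2 + a : ℕ) : ℤ) := by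
        simp only [eval_pow, eval_X]
        push_cast
        ring
      rw [h8, Int.toNat_natCast]
    rw [h7] at hpr
    rw [mem_Icc] at hn
    have hodd : Odd n := by
      by_contra hne
      rw [Nat.not_odd_iff_even] at hne
      have h8 : Even ((n * q) ^ 2 + a) := by
        apply Even.add _ heven
        exact (hne.mul_right q).pow_of_ne_zero (by norm_num)
      have h9 := (Nat.Prime.even_iff hpr).1 h8
      have h10 : 1 ≤ (n * q) ^ 2 := Nat.one_le_pow _ _ (Nat.mul_pos (by omega) (hP q hq).1.pos)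
      obtain ⟨b, hb⟩ := heven
      omega
    obtain ⟨n', hn'⟩ := hodd
    refine ⟨q, hq, n', by omega, by omega, ?_⟩
    rw [← hn']
    exact hpr

end Pool.Agent.Results.MP_4b1228_nt.AlmostAllConstants
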