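import Pool.Agent.Run7.h536.CE9

set_option autoImplicit false

/-!
# Both families at once: `(2 q n)² + c_1` and `((2 n + 1) q)² + c_2` for almost all primes `q`, from all starting points

For almost all primes `q ≤ Q` (`Q` and `X` of polynomially comparable size, so that `q` may be a large power of the number
of the `n`), for ALL starting points `|t| ≤ B X`, and almost all pairs `(c_1, c_2)` of constant terms up to `B (Q X)²`,
the number of the `n`, `t < n ≤ t + M`, for which `(2 q n)² + c_1` AND `((2 n + 1) q)² + c_2` are primes is given by the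
asymptotic formula of Bateman and Horn with the explicit constant, for all `M ≤ X`. The starting point may depend on `q`.

Proof. As polynomials in `n` both have the leading coefficient `4 q²`, and the family of these for prime `q ≤ Q` has nearly
minimal additive energy; the other coefficients are arbitrary (`Run7.h536.CE1` to `CE4`, new). The circle method for
correlations of primes along families of nearly minimal energy (starting files, `TH872.Sq`, `R459.fam_near_fin`) and a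
maximal choice of the bad `t` (`CE5`, `CE6`) give the result, the main term is computed with the fundamental lemma of the
sieve (`LD3`).
-/

namespace Pool.Agent.Results.MP_4b1228_nt.AlmostAllPrimeMultipliers

open Finset Polynomial

/-- The number `ρ(p)` of the residues `n` modulo `p` for which `p` divides
`((2 q (t + n))² + c_1) (((2 (t + n) + 1) q)² + c_2)`. -/
def rho (q : ℕ) (t c₁ c₂ : ℤ) (p : ℕ) : ℕ :=
  ((range p).filter (fun n : ℕ => (p : ℤ) ∣ ((2 * q * (t + n)) ^ 2 + c₁) * (((2 * (t + n) + 1) * q) ^ 2 + c₂))).card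

/-- The singular product `∏_{p ≤ z} (1 - 1/p)⁻² (1 - ρ(p)/p)` (it does not depend on `t`, since `ρ(p)` does not). -/
noncomputable def singular (q : ℕ) (t c₁ c₂ : ℤ) (z : ℕ) : ℝ :=
  ∏ p ∈ (Icc 1 z).filter Nat.Prime, (((1 - 1 / (p : ℝ)) ^ 2)⁻¹ * (1 - (rho q t c₁ c₂ p : ℝ) / p))

/-- Functions between `log` on the primes and the von Mangoldt function. -/
def PrimeLike (L : ℕ → ℝ) : Prop :=
  ∀ n, (if n.Prime then Real.log n else 0) ≤ L n ∧ L n ≤ ArithmeticFunction.vonMangoldt n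

open Classical in
/-- The number of the pairs of integers `c_1`, `c_2`, `|c_1|, |c_2| ≤ K`, such that for some `M ≤ X` the sum of
`L(|(2 q (t + n))² + c_1|) L(|((2 (t + n) + 1) q)² + c_2|)` over `1 ≤ n ≤ M` differs from
`M ∏_{p ≤ z} (1 - 1/p)⁻² (1 - ρ(p)/p)` by more than `δ`. -/
noncomputable def exceptions (K X z : ℕ) (L : ℕ → ℝ) (δ : ℝ) (q : ℕ) (t : ℤ) : ℕ :=
  ((Icc (-(K : ℤ)) K ×ˢ Icc (-(K : ℤ)) K).filter (fun c : ℤ × ℤ => ∃ M : ℕ, M ≤ X ∧
    δ < |∑ n ∈ Icc 1 M, L ((2 * q * (t + (n : ℤ))) ^ 2 + c.1).natAbs * L (((2 * (t + (n : ℤ)) + 1) * q) ^ 2 + c.2).natAbs -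
      M * singular q t c.1 c.2 z|)).card

lemma primes_large : ∃ n₀ : ℕ, ∀ X : ℕ, n₀ ≤ X → ∀ Q : ℕ, 16 ≤ Q → ∀ r : ℕ, Q ≤ X ^ r →
    ((2 * Q : ℕ) : ℝ) ≤ 4 * r * Real.log X * (((Icc 1 Q).filter Nat.Prime).image (fun q => 2 * q)).card := by
  refine ⟨1, fun X hX Q hQ r hr => ?_⟩
  have h1 := Chebyshev.psi_ge Q
  have h2 := Chebyshev.psi_le_primeCounting_mul_log Q
  have hQr : (16 : ℝ) ≤ Q := by exact_mod_cast hQ
  have hcard : (((Icc 1 Q).filter Nat.Prime).image (fun q => 2 * q)).card = Nat.primeCounting Q := by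
    rw [card_image_of_injective _ (fun a b h => by simpa using h), Nat.primeCounting, Nat.primeCounting', Nat.count_eq_card_filter_range]
    congr 1
    ext p
    rw [mem_filter, mem_filter, mem_Icc, mem_range]
    constructor
    · rintro ⟨⟨h1, h2⟩, h3⟩
      exact ⟨by omega, h3⟩
    · rintro ⟨h1, h2⟩
      exact ⟨⟨h2.one_le, by omega⟩, h2⟩
  rw [hcard]
  have hlogQ : Real.log Q ≤ r * Real.log X := by
    have : (Q : ℝ) ≤ (X : ℝ) ^ r := by exact_mod_cast hr
    calc Real.log Q ≤ Real.log ((X : ℝ) ^ r) := Real.log_le_log (by linarith) this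
      _ = _ := Real.log_pow _ _
  have hlog2 : 0.6931471803 < Real.log 2 := Real.log_two_gt_d9
  have hlog2' : Real.log 2 < 0.6931471808 := Real.log_two_lt_d9
  have hlQ1 : Real.log (Q + 1) ≤ (Q + 1) / 16 - 1 + 4 * Real.log 2 := by
    have e : ((Q : ℝ) + 1) = ((Q + 1) / 16) * 2 ^ 4 := by ring
    have e2 : Real.log ((Q : ℝ) + 1) = Real.log ((Q + 1) / 16) + 4 * Real.log 2 := by
      conv_lhs => rw [e]
      rw [Real.log_mul (by positivity) (by positivity), Real.log_pow]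
      norm_num
    rw [e2]
    have := Real.log_le_sub_one_of_pos (x := ((Q : ℝ) + 1) / 16) (by positivity)
    linarith
  have hpi0 : (0 : ℝ) ≤ Nat.primeCounting Q := Nat.cast_nonneg _
  have h3 : (Q : ℝ) / 2 ≤ Nat.primeCounting Q * (r * Real.log X) := by
    have h4 : (Q : ℝ) / 2 ≤ Nat.primeCounting Q * Real.log Q := by
      refine le_trans ?_ (h1.trans h2)
      nlinarith
    exact h4.trans (mul_le_mul_of_nonneg_left hlogQ hpi0)
  push_cast
  nlinarith

lemma card_fin2 (I : Finset ℤ) (P : ℤ × ℤ → Prop) [DecidablePred P] (R : (Fin 2 → ℤ) → Prop) [DecidablePred R]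
    (h : ∀ c : Fin 2 → ℤ, P (c 0, c 1) → R c) :
    ((I ×ˢ I).filter P).card ≤ ((Fintype.piFinset (fun _ : Fin 2 => I)).filter R).card := by
  apply card_le_card_of_injOn (fun c => ![c.1, c.2])
  · intro c hc
    rw [mem_coe, mem_filter, mem_product] at hc
    rw [mem_coe, mem_filter, Fintype.mem_piFinset]
    refine ⟨fun i => ?_, h _ (by simpa using hc.2)⟩
    fin_cases i
    · exact hc.1.1
    · exact hc.1.2
  · intro c _ c' _ hcc
    have h0 := congrFun hcc 0
    have h1 := congrFun hcc 1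
    simp at h0 h1
    exact Prod.ext h0 h1

open Classical in
/-- Fix `r`, `B`, `U`. There is `B₀` such that for all `E` and all large `X`: let `Q ≤ X ^ r`, `X ≤ Q ^ r`, `z` an integer
between `(log X) ^ B₀` and `(log X) ^ E`, and `L` a function between `log` on the primes and the von Mangoldt function.
Then for all but at most `π(Q) / (log X) ^ U` of the primes `q ≤ Q`: for ALL integers `t` with `|t| ≤ B X`, for all but at
most `(Q X) ^ 4 / (log X) ^ U` of the pairs `(c_1, c_2)` of integers with `|c_1|, |c_2| ≤ B (Q X)²`: for all `M ≤ X` the sum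
of `L(|(2 q (t + n))² + c_1|) L(|((2 (t + n) + 1) q)² + c_2|)` over `1 ≤ n ≤ M` is
`M ∏_{p ≤ z} (1 - 1/p)⁻² (1 - ρ(p)/p)` up to `X / (log X) ^ U`. -/
theorem result (r B U : ℕ) (hr : 1 ≤ r) (hB : 1 ≤ B) :
    ∃ B₀ : ℕ, ∀ E : ℕ, ∃ x₀ : ℕ, ∀ X : ℕ, x₀ ≤ X → ∀ Q : ℕ, Q ≤ X ^ r → X ≤ Q ^ r →
    ∀ z : ℕ, Real.log X ^ B₀ ≤ z → (z : ℝ) ≤ Real.log X ^ E → ∀ L : ℕ → ℝ, PrimeLike L →
    (((Icc 1 Q).filter (fun q : ℕ => q.Prime ∧ ∃ t : ℤ, |t| ≤ B * X ∧
      ((Q * X : ℕ) : ℝ) ^ 4 / Real.log X ^ U <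
        exceptions (B * (Q * X) ^ 2) X z L (X / Real.log X ^ U) q t)).card : ℝ) ≤
      ((Icc 1 Q).filter Nat.Prime).card / Real.log X ^ U := by
  obtain ⟨B1, hB1⟩ : ∃ B1, B1 = 25 * (B + 2) ^ 2 := ⟨_, rfl⟩
  have hBB1 : B ≤ B1 := by rw [hB1]; nlinarith
  obtain ⟨B0, h0⟩ := Pool.Agent.Run7.h536.CE.ap_int 2 (fun _ => 2) (fun _ => le_rfl) (r + 2) B1 2 (U + 5) (by omega)
    (hB.trans hBB1)
  refine ⟨B0, fun E => ?_⟩
  obtain ⟨x0, h1⟩ := h0 E
  obtain ⟨n1, hn1⟩ := Pool.Agent.H373R2.T7.ev_L' (4 * r + 16)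
  obtain ⟨n2, hn2⟩ := primes_large
  obtain ⟨n3, hn3⟩ : ∃ n3 : ℕ, n3 = 16 ^ r := ⟨_, rfl⟩
  refine ⟨x0 + n1 + n2 + n3 + 2, fun X hX Q hQ1 hQ2 z hz1 hz2 L hL => ?_⟩
  have hlog := hn1 X (by omega)
  have hQ16 : 16 ≤ Q := by
    by_contra hcon
    have : Q ^ r ≤ 16 ^ r := Nat.pow_le_pow_left (by omega) r
    rw [← hn3] at this
    omega
  have hX2 : 2 ≤ X := by omega
  have hprim := hn2 X (by omega) Q hQ16 r hQ1
  obtain ⟨ℓ, hℓ⟩ : ∃ ℓ, ℓ = Real.log X := ⟨_, rfl⟩
  rw [← hℓ] at hlog hprim hz1 hz2 ⊢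
  have hr0 : (0 : ℝ) ≤ r := Nat.cast_nonneg r
  have hℓ16 : 16 ≤ ℓ := by linarith
  have hℓ0 : 0 < ℓ := by linarith
  obtain ⟨A, hA⟩ : ∃ A : Finset ℕ, A = ((Icc 1 Q).filter Nat.Prime).image (fun q => 2 * q) := ⟨_, rfl⟩
  have hAcard : A.card = ((Icc 1 Q).filter Nat.Prime).card := by
    rw [hA, card_image_of_injective _ (fun a b h => by simpa using h)]
  rw [← hA] at hprim
  have key := h1 X (by omega) (2 * Q) (by
      calc 2 * Q ≤ X * X ^ r := Nat.mul_le_mul hX2 hQ1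
        _ = X ^ (r + 1) := by rw [pow_succ]; ring
        _ = _ := rfl) (by
      calc X ≤ Q ^ r := hQ2
        _ ≤ (2 * Q) ^ r := Nat.pow_le_pow_left (by omega) r
        _ ≤ _ := Nat.pow_le_pow_right (by omega) (by omega)) A (by
      intro n hn
      rw [hA, mem_image] at hn
      obtain ⟨q, hq, rfl⟩ := hn
      rw [mem_filter, mem_Icc] at hq
      rw [mem_Icc]
      omega) (by
      rw [← hℓ]
      refine hprim.trans ?_
      apply mul_le_mul_of_nonneg_right _ (Nat.cast_nonneg _)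
      nlinarith) (fun _ => 1) (fun _ => one_ne_zero) z (by rw [← hℓ]; exact hz1) (by rw [← hℓ]; exact hz2) L hL
  rw [← hℓ] at key
  have hfin : (A.card : ℝ) / ℓ ^ (U + 5) ≤ ((Icc 1 Q).filter Nat.Prime).card / ℓ ^ U := by
    rw [hAcard]
    apply div_le_div_of_nonneg_left (Nat.cast_nonneg _) (by positivity)
    exact pow_le_pow_right₀ (by linarith) (by omega)
  refine le_trans (Nat.cast_le.2 ?_) (key.trans hfin)
  rw [← card_image_of_injective _ (fun a b h => by simpa using h : Function.Injective (fun q : ℕ => 2 * q))]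
  apply card_le_card
  intro n hn
  rw [mem_image] at hn
  obtain ⟨q, hq, rfl⟩ := hn
  rw [mem_filter, mem_Icc] at hq
  obtain ⟨⟨hq1, hq2⟩, hqp, t, ht, hex⟩ := hq
  rw [mem_filter]
  refine ⟨by rw [hA, mem_image]; exact ⟨q, mem_filter.2 ⟨mem_Icc.2 ⟨hq1, hq2⟩, hqp⟩, rfl⟩, ?_⟩
  have hm1 : ((Polynomial.X + Polynomial.C (q : ℤ) : ℤ[X])).Monic := monic_X_add_C _
  have hd1 : ((Polynomial.X + Polynomial.C (q : ℤ) : ℤ[X]) ^ 2).natDegree = 2 := by
    rw [hm1.natDegree_pow, natDegree_X_add_C]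
  refine ⟨![Polynomial.X ^ 2, (Polynomial.X + Polynomial.C (q : ℤ)) ^ 2], 2 * q * t, ?_, ?_, ?_, ?_⟩
  · intro l
    fin_cases l
    · exact natDegree_X_pow_le 2
    · exact hd1.le
  · intro l
    fin_cases l
    · show (Polynomial.X ^ 2 : ℤ[X]).coeff 2 = 1
      rw [coeff_X_pow, if_pos rfl]
    · show ((Polynomial.X + Polynomial.C (q : ℤ) : ℤ[X]) ^ 2).coeff 2 = 1
      have := (hm1.pow 2).coeff_natDegree
      rwa [hd1] at this
  · have hX0 : (0 : ℤ) ≤ X := Int.natCast_nonneg X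
    have hB0' : (0 : ℤ) ≤ B := Int.natCast_nonneg B
    have hq0 : (0 : ℤ) ≤ q := Int.natCast_nonneg q
    have hQ0 : (0 : ℤ) ≤ Q := Int.natCast_nonneg Q
    have hqQ : (q : ℤ) ≤ Q := by exact_mod_cast hq2
    have hX1 : (1 : ℤ) ≤ X := by exact_mod_cast (by omega : 1 ≤ X)
    have e0 : ∀ n ∈ range (2 * X), |((2 * q : ℕ) : ℤ) * (n : ℤ) + 2 * q * t| ≤ 2 * (B + 2) * (Q * X) := by
      intro n hn
      rw [mem_range] at hn
      have hn' : (n : ℤ) ≤ 2 * X := by exact_mod_cast hn.le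
      have hn0 : (0 : ℤ) ≤ n := Int.natCast_nonneg n
      have e1 : ((2 * q : ℕ) : ℤ) * (n : ℤ) + 2 * q * t = 2 * q * (n + t) := by push_cast; ring
      rw [e1, abs_mul, abs_of_nonneg (by positivity : (0 : ℤ) ≤ 2 * q)]
      have e2 : |(n : ℤ) + t| ≤ (B + 2) * X := by
        refine (abs_add_le _ _).trans ?_
        rw [abs_of_nonneg hn0]
        linarith
      calc 2 * (q : ℤ) * |(n : ℤ) + t| ≤ 2 * Q * ((B + 2) * X) := mul_le_mul (by linarith) e2 (abs_nonneg _) (by positivity)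
        _ = _ := by ring
    have e5 : ∀ y : ℤ, |y| ≤ 2 * (B + 2) * (Q * X) + Q * X → |y ^ 2| ≤ (B1 : ℤ) * (((2 * Q * X) ^ 2 : ℕ) : ℤ) := by
      intro y hy
      rw [abs_pow]
      refine (pow_le_pow_left₀ (abs_nonneg _) hy 2).trans ?_
      rw [hB1]
      push_cast
      have e6 : 2 * ((B : ℤ) + 2) * (Q * X) + Q * X ≤ 5 * (B + 2) * (2 * Q * X) := by nlinarith [mul_nonneg hQ0 hX0, mul_nonneg hB0' (mul_nonneg hQ0 hX0)]
      calc (2 * ((B : ℤ) + 2) * (Q * X) + Q * X) ^ 2 ≤ (5 * (B + 2) * (2 * Q * X)) ^ 2 := pow_le_pow_left₀ (by positivity) e6 2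
        _ = _ := by ring
    intro l n hn
    have e7 := e0 n hn
    have hQX : (0 : ℤ) ≤ Q * X := mul_nonneg hQ0 hX0
    fin_cases l
    · show |(Polynomial.X ^ 2 : ℤ[X]).eval (((2 * q : ℕ) : ℤ) * (n : ℤ) + 2 * q * t)| ≤ _
      rw [eval_pow, eval_X]
      exact e5 _ (by linarith)
    · show |((Polynomial.X + Polynomial.C (q : ℤ)) ^ 2 : ℤ[X]).eval (((2 * q : ℕ) : ℤ) * (n : ℤ) + 2 * q * t)| ≤ _
      rw [eval_pow, eval_add, eval_X, eval_C]
      apply e5
      refine (abs_add_le _ _).trans (add_le_add e7 ?_)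
      rw [abs_of_nonneg hq0]
      calc (q : ℤ) ≤ Q * 1 := by linarith
        _ ≤ Q * X := mul_le_mul_of_nonneg_left hX1 hQ0
  · have hprod : ∏ _l : Fin 2, (((2 * Q * X) ^ 2 : ℕ) : ℝ) = 16 * ((Q * X : ℕ) : ℝ) ^ 4 := by
      rw [Fin.prod_univ_two]
      push_cast
      ring
    rw [hprod]
    have hsm : 16 * ((Q * X : ℕ) : ℝ) ^ 4 / ℓ ^ (U + 5) ≤ ((Q * X : ℕ) : ℝ) ^ 4 / ℓ ^ U := by
      rw [div_le_div_iff₀ (by positivity) (by positivity), pow_add]
      have e8 : (16 : ℝ) ≤ ℓ ^ 5 := hℓ16.trans (le_self_pow₀ (by linarith) (by norm_num))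
      have e9 : 0 ≤ ((Q * X : ℕ) : ℝ) ^ 4 * ℓ ^ U := by positivity
      nlinarith
    refine lt_of_le_of_lt hsm (lt_of_lt_of_le hex (Nat.cast_le.2 ?_))
    unfold exceptions
    have hbig : ((B * (Q * X) ^ 2 : ℕ) : ℤ) ≤ (B1 : ℤ) * (((2 * Q * X) ^ 2 : ℕ) : ℤ) := by
      have : B * (Q * X) ^ 2 ≤ B1 * (2 * Q * X) ^ 2 := Nat.mul_le_mul hBB1 (Nat.pow_le_pow_left (by
        rw [mul_assoc]; omega) 2)
      exact_mod_cast this
    refine (card_fin2 _ _ _ ?_).trans (card_le_card (filter_subset_filter _ ?_))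
    · rintro c ⟨M, hM1, hM2⟩
      refine ⟨M, hM1, lt_of_le_of_lt ?_ (lt_of_lt_of_le hM2 (le_of_eq ?_))⟩
      · apply div_le_div_of_nonneg_left (Nat.cast_nonneg _) (by positivity)
        exact pow_le_pow_right₀ (by linarith) (by omega)
      · congr 1
        have hF1 : ∀ n : ℤ, (![Polynomial.X ^ 2, (Polynomial.X + Polynomial.C (q : ℤ)) ^ 2] (0 : Fin 2) : ℤ[X]).eval
            (((2 * q : ℕ) : ℤ) * n + 2 * q * t) + c 0 = (2 * q * (t + n)) ^ 2 + c 0 := by
          intro n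
          show (Polynomial.X ^ 2 : ℤ[X]).eval (((2 * q : ℕ) : ℤ) * n + 2 * q * t) + c 0 = _
          rw [eval_pow, eval_X]
          push_cast
          ring
        have hF2 : ∀ n : ℤ, (![Polynomial.X ^ 2, (Polynomial.X + Polynomial.C (q : ℤ)) ^ 2] (1 : Fin 2) : ℤ[X]).eval
            (((2 * q : ℕ) : ℤ) * n + 2 * q * t) + c 1 = ((2 * (t + n) + 1) * q) ^ 2 + c 1 := by
          intro n
          show ((Polynomial.X + Polynomial.C (q : ℤ)) ^ 2 : ℤ[X]).eval (((2 * q : ℕ) : ℤ) * n + 2 * q * t) + c 1 = _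
          rw [eval_pow, eval_add, eval_X, eval_C]
          push_cast
          ring
        have hrho : ∀ p : ℕ, Pool.Agent.Run7.h536.MT.rho (∏ l : Fin 2, ((![Polynomial.X ^ 2, (Polynomial.X + Polynomial.C (q : ℤ)) ^ 2] l +
            Polynomial.C (c l)).comp (Polynomial.C ((2 * q : ℕ) : ℤ) * Polynomial.X + Polynomial.C (2 * q * t)))) p = rho q t (c 0) (c 1) p := by
          intro p
          unfold Pool.Agent.Run7.h536.MT.rho rho
          congr 1
          apply filter_congr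
          intro n _
          rw [eval_prod, Fin.prod_univ_two]
          simp only [eval_comp, eval_add, eval_mul, eval_C, eval_X]
          rw [hF1, hF2]
        simp only [hrho]
        simp only [Fin.prod_univ_two, hF1, hF2]
        rfl
    · intro c hc
      rw [Fintype.mem_piFinset] at hc ⊢
      intro l
      have := mem_Icc.1 (hc l)
      rw [mem_Icc]
      exact ⟨by linarith [this.1], by linarith [this.2]⟩

end Pool.Agent.Results.MP_4b1228_nt.AlmostAllPrimeMultipliers
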