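import Mathlib
import Pool.Agent.Run7.h373.QE.Fam

/-!
# Primes `(2 q n)² + c` and `((2 n + 1) q)² + c` in almost all windows of length `T log X`

The two families of the problem are `(2 q n)² + 1` and `((2 n + 1) q)² + 4`. Here the constants `1` and `4` are replaced by
integers `|c| ≤ X`: for almost all pairs `(c, b)`, `|c| ≤ X`, `b` in ANY interval `[a, a + L)` of length
`L ≥ X^(1/3) (log X)^B` with `|a| + L + H ≤ A √X`, and for ALL primes `q ≤ A`, the numbers of the primes of either family with `n`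
in the window `(b, b + H]` are given by the formula of Bateman and Horn as soon as `H ≥ T log X`; the error is at most `ε`
times the main term. In windows of this length the formula predicts a bounded number of primes, so the order of the length
is the best possible.

Proof. The theorem behind my hand-in `MP_4d57ea_nt.OptimalScale` for the polynomials `4 q² x²` and `q² (2 x + 1)²`.
-/

set_option autoImplicit false

namespace Pool.Agent.Results.MP_4b1228_nt.OptimalScale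

open Finset

/-- the first family -/
def fA (q : ℕ) (c n : ℤ) : ℤ := (2 * q * n) ^ 2 + c

/-- the second family -/
def fB (q : ℕ) (c n : ℤ) : ℤ := ((2 * n + 1) * q) ^ 2 + c

/-- the number of the residues `r` modulo `p` with `p ∣ f(r)` -/
def rho (f : ℤ → ℤ) (p : ℕ) : ℕ := #((range p).filter (fun r : ℕ => (p : ℤ) ∣ f r))

/-- the product of `(p - rho(p)) / (p - 1)` over the primes `p ≤ z` -/
noncomputable def S (f : ℤ → ℤ) (z : ℕ) : ℝ :=
  ∏ p ∈ (range (z + 1)).filter Nat.Prime, ((p : ℝ) - rho f p) / ((p : ℝ) - 1)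

/-- the number of the integers `a < n ≤ b` for which `f(n)` is a (positive) prime -/
noncomputable def P (f : ℤ → ℤ) (a b : ℤ) : ℕ := #((Ioc a b).filter (fun n : ℤ => Nat.Prime (f n).toNat))

/-- the sum of `1 / log f(n)` over the integers `a < n ≤ b` with `f(n) ≥ 2` -/
noncomputable def M (f : ℤ → ℤ) (a b : ℤ) : ℝ :=
  ∑ n ∈ (Ioc a b).filter (fun n : ℤ => 2 ≤ f n), 1 / Real.log (f n : ℝ)

/-- the formula of Bateman and Horn for `f` in `(b, b + H]` with an error `ε S H / log X`, the product being taken over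
the primes up to any `z` with `(log X)^B ≤ z ≤ X^(1/3)` -/
def Formula (X B : ℕ) (ε : ℝ) (f : ℤ → ℤ) (b : ℤ) (H : ℕ) : Prop :=
  ∀ z : ℕ, Real.log X ^ B ≤ z → z ^ 3 ≤ X → 0 < S f z ∧
    |(P f b (b + H) : ℝ) - S f z * M f b (b + H)| ≤ ε * (S f z * (H / Real.log X))

lemma S_eq (f : ℤ → ℤ) (q u c : ℤ) (z : ℕ) (h : ∀ n, f n = (q * (2 * n + u)) ^ 2 + c) :
    S f z = Run7.h373.QE.Gen.S (Run7.h373.QE.Fam.FQ q u) c z := by
  unfold S Run7.h373.QE.Gen.S rho Run7.h373.QE.Gen.rho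
  simp only [Run7.h373.QE.Fam.FQ_eval, h]

lemma P_eq (f : ℤ → ℤ) (q u c a b : ℤ) (h : ∀ n, f n = (q * (2 * n + u)) ^ 2 + c) :
    P f a b = Run7.h373.QE.Gen.P (Run7.h373.QE.Fam.FQ q u) 1 c a b := by
  unfold P Run7.h373.QE.Gen.P
  simp only [Run7.h373.QE.Fam.FQ_eval, h, one_mul]

lemma M_eq (f : ℤ → ℤ) (q u c a b : ℤ) (h : ∀ n, f n = (q * (2 * n + u)) ^ 2 + c) :
    M f a b = Run7.h373.QE.Gen.M (Run7.h373.QE.Fam.FQ q u) 1 c a b := by
  unfold M Run7.h373.QE.Gen.M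
  simp only [Run7.h373.QE.Fam.FQ_eval, h, one_mul]

lemma fA_eq (q : ℕ) (c n : ℤ) : fA q c n = ((q : ℤ) * (2 * n + 0)) ^ 2 + c := by unfold fA; ring

lemma fB_eq (q : ℕ) (c n : ℤ) : fB q c n = ((q : ℤ) * (2 * n + 1)) ^ 2 + c := by unfold fB; ring

/-- one prime `q` and one family -/
lemma one (A : ℕ) (ε : ℝ) (hε : 0 < ε) : ∃ T : ℝ, 0 < T ∧ ∃ B X₀ : ℕ, ∀ X : ℕ, X₀ ≤ X → ∀ (a : ℤ) (L H : ℕ),
    (X : ℝ) ^ ((1 : ℝ) / 3) * Real.log X ^ B ≤ L → T * Real.log X ≤ H → |(a : ℝ)| + L + H ≤ A * √X →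
    ∀ q : ℕ, q.Prime → q ≤ A → ∀ u : ℤ, 0 ≤ u → u ≤ 1 →
    ∃ Bad ⊆ Icc (-(X : ℤ)) X ×ˢ Ico a (a + L), (#Bad : ℝ) ≤ ε * (X * L) ∧
    ∀ c ∈ Icc (-(X : ℤ)) X, ∀ b ∈ Ico a (a + L), (c, b) ∉ Bad → ¬ (2 : ℤ) ∣ q * u + c → ¬ (q : ℤ) ∣ c → ∀ f : ℤ → ℤ,
      (∀ n, f n = ((q : ℤ) * (2 * n + u)) ^ 2 + c) → Formula X B ε f b H := by
  obtain ⟨T, hT, B, X₀, h0⟩ := Run7.h373.QE.Gen.opt 2 le_rfl (A ^ 2 * (2 * A + 1) ^ 2 + 4 * A ^ 2) ε hε
  refine ⟨T, hT, B, X₀ + 1, fun X hX a L H hL hH hv q hq hqA u hu0 hu1 => ?_⟩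
  have hX0 : (0 : ℝ) ≤ X := Nat.cast_nonneg _
  have hA0 : (0 : ℝ) ≤ A := Nat.cast_nonneg _
  have hsX : √(X : ℝ) * √(X : ℝ) = X := Real.mul_self_sqrt hX0
  have hX1 : (1 : ℝ) ≤ X := by exact_mod_cast (by omega : 1 ≤ X)
  have hs1 : 1 ≤ √(X : ℝ) := by rw [Real.one_le_sqrt]; exact hX1
  have hq1 : (1 : ℤ) ≤ q := by exact_mod_cast hq.one_le
  have hqr : (0 : ℝ) ≤ q := Nat.cast_nonneg _
  have hqA' : (q : ℝ) ≤ A := by exact_mod_cast hqA
  have hq2 : (q : ℝ) ^ 2 ≤ (A : ℝ) ^ 2 := pow_le_pow_left₀ hqr hqA' 2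
  obtain ⟨Bad, k1, k2, k3⟩ := h0 X (by omega) (Run7.h373.QE.Fam.FQ q u) (Run7.h373.QE.Fam.FQ_deg q u hq1) (by
      rw [Run7.h373.QE.Fam.FQ_lead q u hq1]
      push_cast
      rw [abs_of_nonneg (by positivity)]
      have h2 : (0 : ℝ) ≤ (A : ℝ) ^ 2 * (2 * A + 1) ^ 2 := by positivity
      linarith) a L H (by
      refine le_trans (le_of_eq ?_) hL
      norm_num) hH (by
      intro m hm
      rw [mem_Ioc] at hm
      rw [Run7.h373.QE.Fam.FQ_eval]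
      push_cast
      have hu0' : (0 : ℝ) ≤ u := by exact_mod_cast hu0
      have hu1' : (u : ℝ) ≤ 1 := by exact_mod_cast hu1
      have h2 : |(m : ℝ)| ≤ A * √X := by
        have h3 : (a : ℝ) ≤ m := by exact_mod_cast hm.1.le
        have h4 : (m : ℝ) ≤ a + L + H := by exact_mod_cast hm.2
        have h5 := neg_abs_le (a : ℝ)
        have h6 := le_abs_self (a : ℝ)
        have h7 : (0 : ℝ) ≤ H := Nat.cast_nonneg _
        have h8 : (0 : ℝ) ≤ L := Nat.cast_nonneg _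
        rw [abs_le]
        constructor <;> linarith
      have h3 : |2 * (m : ℝ) + u| ≤ (2 * A + 1) * √X := by
        have h5 := (abs_le.1 h2)
        rw [abs_le]
        constructor <;> linarith
      have h4 : (2 * (m : ℝ) + u) ^ 2 ≤ (2 * A + 1) ^ 2 * X := by
        rw [← sq_abs]
        calc |2 * (m : ℝ) + u| ^ 2 ≤ ((2 * A + 1) * √X) ^ 2 := pow_le_pow_left₀ (abs_nonneg _) h3 2
          _ = (2 * A + 1) ^ 2 * (√X * √X) := by ring
          _ = (2 * A + 1) ^ 2 * X := by rw [hsX]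
      rw [abs_of_nonneg (by positivity), mul_pow]
      calc (q : ℝ) ^ 2 * (2 * (m : ℝ) + u) ^ 2 ≤ A ^ 2 * ((2 * A + 1) ^ 2 * X) :=
            mul_le_mul hq2 h4 (by positivity) (by positivity)
        _ ≤ (A ^ 2 * (2 * A + 1) ^ 2 + 4 * A ^ 2) * X := by
            have h6 : 0 ≤ 4 * (A : ℝ) ^ 2 * X := by positivity
            nlinarith)
  refine ⟨Bad, k1, k2, fun c hc b hb hcB h2 h3 f hf z hz1 hz2 => ?_⟩
  obtain ⟨m1, m2⟩ := k3 c hc b hb hcB (fun p hp => by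
    obtain ⟨m, hm⟩ := Run7.h373.QE.Fam.adm q hq u c h2 h3 p hp
    exact ⟨m, by rw [Run7.h373.QE.Fam.FQ_eval]; exact hm⟩) z hz1 hz2
  rw [S_eq f q u c z hf, P_eq f q u c _ _ hf, M_eq f q u c _ _ hf]
  exact ⟨m1, m2 1 (Or.inl rfl)⟩

/-- **Primes of the two families at the optimal scale.**
Let `A ≥ 0` and `ε > 0`. There are `T > 0`, `B` and `X₀` such that the following holds for `X ≥ X₀` and for all `a`,
`L ≥ X^(1/3) (log X)^B` and `H ≥ T log X` with `|a| + L + H ≤ A √X`. For all but at most `ε X L` of the pairs `(c, b)` with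
`|c| ≤ X` and `a ≤ b < a + L` and for ALL primes `q ≤ A` which do not divide `c`: if `c` is odd, then the number of the
`b < n ≤ b + H` with `(2 q n)² + c` prime satisfies `Formula`, and if `q + c` is odd, then the number of the `b < n ≤ b + H` with
`((2 n + 1) q)² + c` prime does. -/
theorem result (A : ℕ) (ε : ℝ) (hε : 0 < ε) : ∃ T : ℝ, 0 < T ∧ ∃ B X₀ : ℕ, ∀ X : ℕ, X₀ ≤ X → ∀ (a : ℤ) (L H : ℕ),
    (X : ℝ) ^ ((1 : ℝ) / 3) * Real.log X ^ B ≤ L → T * Real.log X ≤ H → |(a : ℝ)| + L + H ≤ A * √X →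
    ∃ Bad ⊆ Icc (-(X : ℤ)) X ×ˢ Ico a (a + L), (#Bad : ℝ) ≤ ε * (X * L) ∧
    ∀ c ∈ Icc (-(X : ℤ)) X, ∀ b ∈ Ico a (a + L), (c, b) ∉ Bad → ∀ q : ℕ, q.Prime → q ≤ A → ¬ (q : ℤ) ∣ c →
      (¬ (2 : ℤ) ∣ c → Formula X B ε (fA q c) b H) ∧ (¬ (2 : ℤ) ∣ q + c → Formula X B ε (fB q c) b H) := by
  classical
  have hA1 : (0 : ℝ) < 2 * (A + 1) := by positivity
  obtain ⟨T, hT, B, X₀, h0⟩ := one A (ε / (2 * (A + 1))) (by positivity)
  refine ⟨T, hT, B, X₀, fun X hX a L H hL hH hv => ?_⟩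
  have hX0 : (0 : ℝ) ≤ X := Nat.cast_nonneg _
  have h2 := h0 X hX a L H hL hH hv
  have hA : ∀ q : ℕ, ∃ Bad ⊆ Icc (-(X : ℤ)) X ×ˢ Ico a (a + L), (#Bad : ℝ) ≤ ε / (2 * (A + 1)) * (X * L) ∧
      (q.Prime → q ≤ A → ∀ c ∈ Icc (-(X : ℤ)) X, ∀ b ∈ Ico a (a + L), (c, b) ∉ Bad → ¬ (2 : ℤ) ∣ q * 0 + c →
        ¬ (q : ℤ) ∣ c → ∀ f : ℤ → ℤ, (∀ n, f n = ((q : ℤ) * (2 * n + 0)) ^ 2 + c) →
        Formula X B (ε / (2 * (A + 1))) f b H) := by
    intro q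
    by_cases hq : q.Prime ∧ q ≤ A
    · obtain ⟨Bad, k1, k2, k3⟩ := h2 q hq.1 hq.2 0 le_rfl (by norm_num)
      exact ⟨Bad, k1, k2, fun _ _ => k3⟩
    · refine ⟨∅, empty_subset _, by rw [card_empty, Nat.cast_zero]; positivity, fun q1 q2 => absurd ⟨q1, q2⟩ hq⟩
  have hB : ∀ q : ℕ, ∃ Bad ⊆ Icc (-(X : ℤ)) X ×ˢ Ico a (a + L), (#Bad : ℝ) ≤ ε / (2 * (A + 1)) * (X * L) ∧
      (q.Prime → q ≤ A → ∀ c ∈ Icc (-(X : ℤ)) X, ∀ b ∈ Ico a (a + L), (c, b) ∉ Bad → ¬ (2 : ℤ) ∣ q * 1 + c →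
        ¬ (q : ℤ) ∣ c → ∀ f : ℤ → ℤ, (∀ n, f n = ((q : ℤ) * (2 * n + 1)) ^ 2 + c) →
        Formula X B (ε / (2 * (A + 1))) f b H) := by
    intro q
    by_cases hq : q.Prime ∧ q ≤ A
    · obtain ⟨Bad, k1, k2, k3⟩ := h2 q hq.1 hq.2 1 (by norm_num) le_rfl
      exact ⟨Bad, k1, k2, fun _ _ => k3⟩
    · refine ⟨∅, empty_subset _, by rw [card_empty, Nat.cast_zero]; positivity, fun q1 q2 => absurd ⟨q1, q2⟩ hq⟩
  choose BA a1 a2 a3 using hA
  choose BB b1 b2 b3 using hB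
  refine ⟨(Icc 1 A).biUnion (fun q => BA q ∪ BB q), ?_, ?_, ?_⟩
  · intro c hc
    rw [mem_biUnion] at hc
    obtain ⟨q, _, hc⟩ := hc
    rw [mem_union] at hc
    rcases hc with hc | hc
    · exact a1 q hc
    · exact b1 q hc
  · have c1 : #((Icc 1 A).biUnion (fun q => BA q ∪ BB q)) ≤ ∑ q ∈ Icc 1 A, (#(BA q) + #(BB q)) :=
      card_biUnion_le.trans (sum_le_sum fun q _ => card_union_le _ _)
    have c2 : (#((Icc 1 A).biUnion (fun q => BA q ∪ BB q)) : ℝ) ≤ ∑ q ∈ Icc 1 A, ((#(BA q) : ℝ) + #(BB q)) := by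
      exact_mod_cast c1
    refine c2.trans ?_
    calc ∑ q ∈ Icc 1 A, ((#(BA q) : ℝ) + #(BB q))
        ≤ ∑ q ∈ Icc 1 A, (ε / (2 * (A + 1)) * (X * L) + ε / (2 * (A + 1)) * (X * L)) :=
          sum_le_sum fun q _ => add_le_add (a2 q) (b2 q)
      _ = (A / (A + 1)) * (ε * (X * L)) := by
          rw [sum_const, Nat.card_Icc, nsmul_eq_mul, Nat.add_sub_cancel]
          field_simp
          ring
      _ ≤ 1 * (ε * (X * L)) := by
          apply mul_le_mul_of_nonneg_right _ (by positivity)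
          rw [div_le_one (by positivity)]
          linarith
      _ = ε * (X * L) := one_mul _
  · intro c hc b hb hcB q hq hqA hqc
    have hqQ : q ∈ Icc 1 A := by
      rw [mem_Icc]
      exact ⟨hq.one_le, hqA⟩
    have hcA : (c, b) ∉ BA q := fun h => hcB (mem_biUnion.2 ⟨q, hqQ, mem_union_left _ h⟩)
    have hcB' : (c, b) ∉ BB q := fun h => hcB (mem_biUnion.2 ⟨q, hqQ, mem_union_right _ h⟩)
    have hle : ε / (2 * (A + 1)) ≤ ε := by
      apply div_le_self hε.le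
      have : (0 : ℝ) ≤ A := Nat.cast_nonneg _
      linarith
    have key : ∀ f : ℤ → ℤ, Formula X B (ε / (2 * (A + 1))) f b H → Formula X B ε f b H := by
      intro f hf z hz1 hz2
      obtain ⟨m1, m2⟩ := hf z hz1 hz2
      refine ⟨m1, m2.trans ?_⟩
      apply mul_le_mul_of_nonneg_right hle
      have h5 : 0 ≤ (H : ℝ) / Real.log X := div_nonneg (Nat.cast_nonneg _) (Real.log_natCast_nonneg _)
      exact mul_nonneg m1.le h5
    constructor
    · intro h3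
      exact key _ (a3 q hq hqA c hc b hb hcA (by rwa [mul_zero, zero_add]) hqc _ (fA_eq q c))
    · intro h3
      exact key _ (b3 q hq hqA c hc b hb hcB' (by rwa [mul_one]) hqc _ (fB_eq q c))

end Pool.Agent.Results.MP_4b1228_nt.OptimalScale
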