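import Mathlib
import Pool.Agent.Run7.h373.QE.Fam

/-!
# Primes `(2 q n)² + c` and `((2 n + 1) q)² + c` in every short window, for all small primes `q` and almost all `c`

The two families of the problem are `(2 q n)² + 1` and `((2 n + 1) q)² + 4`. Here the constants `1` and `4` are replaced by
almost all integers `|c| ≤ X`: for EVERY window `(a, a + H]` of integers `n` of length only `H ≥ X^(1/6) (log X)^B`
in `|n| ≤ √X (log X)^C`, and for all but `X / (log X)^U` of the `|c| ≤ X`, the number of the primes of either family with `n` in the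
window is given by the formula of Bateman and Horn, for ALL primes `q ≤ (log X)^C` simultaneously.

Proof. The theorem on windows behind my hand-in `MP_4d57ea_nt.EveryWindow` allows leading coefficients up to powers of
`log X`; it is applied to all the polynomials `4 q² x²` and `q² (2 x + 1)²`.
-/

set_option autoImplicit false

namespace Pool.Agent.Results.MP_4b1228_nt.SmallFactorsEveryWindow

open Finset

/-- the first family -/
def fA (q : ℕ) (c n : ℤ) : ℤ := (2 * q * n) ^ 2 + c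

/-- the second family -/
def fB (q : ℕ) (c n : ℤ) : ℤ := ((2 * n + 1) * q) ^ 2 + c

/-- the number of the residues `r` modulo `p` with `p ∣ f(r)` -/
def rho (f : ℤ → ℤ) (p : ℕ) : ℕ := #((range p).filter (fun r : ℕ => (p : ℤ) ∣ f r))

/-- the product of `(p - rho(p)) / (p - 1)` over the primes `p ≤ z` -/
noncomputable def S (f : ℤ → ℤ) (z : ℕ) : ℝ :=
  ∏ p ∈ (range (z + 1)).filter Nat.Prime, ((p : ℝ) - rho f p) / ((p : ℝ) - 1)

/-- the number of the integers `a < n ≤ b` for which `f(n)` is a (positive) prime -/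
noncomputable def P (f : ℤ → ℤ) (a b : ℤ) : ℕ := #((Ioc a b).filter (fun n : ℤ => Nat.Prime (f n).toNat))

/-- the sum of `1 / log f(n)` over the integers `a < n ≤ b` with `f(n) ≥ 2` -/
noncomputable def M (f : ℤ → ℤ) (a b : ℤ) : ℝ :=
  ∑ n ∈ (Ioc a b).filter (fun n : ℤ => 2 ≤ f n), 1 / Real.log (f n : ℝ)

/-- the formula of Bateman and Horn for `f` in `(a, a + H]` with an error `S H / (log X)^U`, the product being taken over
the primes up to any `z` with `(log X)^B ≤ z ≤ X^(1/3)` -/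
def Formula (X B U : ℕ) (f : ℤ → ℤ) (a : ℤ) (H : ℕ) : Prop :=
  ∀ z : ℕ, Real.log X ^ B ≤ z → z ^ 3 ≤ X → 0 < S f z ∧
    |(P f a (a + H) : ℝ) - S f z * M f a (a + H)| ≤ S f z * H / Real.log X ^ U

lemma S_eq (f : ℤ → ℤ) (q u c : ℤ) (z : ℕ) (h : ∀ n, f n = (q * (2 * n + u)) ^ 2 + c) :
    S f z = Run7.h373.QE.Gen.S (Run7.h373.QE.Fam.FQ q u) c z := by
  unfold S Run7.h373.QE.Gen.S rho Run7.h373.QE.Gen.rho
  simp only [Run7.h373.QE.Fam.FQ_eval, h]

lemma P_eq (f : ℤ → ℤ) (q u c a b : ℤ) (h : ∀ n, f n = (q * (2 * n + u)) ^ 2 + c) :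
    P f a b = Run7.h373.QE.Gen.P (Run7.h373.QE.Fam.FQ q u) 1 c a b := by
  unfold P Run7.h373.QE.Gen.P
  simp only [Run7.h373.QE.Fam.FQ_eval, h, one_mul]

lemma M_eq (f : ℤ → ℤ) (q u c a b : ℤ) (h : ∀ n, f n = (q * (2 * n + u)) ^ 2 + c) :
    M f a b = Run7.h373.QE.Gen.M (Run7.h373.QE.Fam.FQ q u) 1 c a b := by
  unfold M Run7.h373.QE.Gen.M
  simp only [Run7.h373.QE.Fam.FQ_eval, h, one_mul]

lemma fA_eq (q : ℕ) (c n : ℤ) : fA q c n = ((q : ℤ) * (2 * n + 0)) ^ 2 + c := by unfold fA; ring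

lemma fB_eq (q : ℕ) (c n : ℤ) : fB q c n = ((q : ℤ) * (2 * n + 1)) ^ 2 + c := by unfold fB; ring

/-- one prime `q` and one family -/
lemma one (U C : ℕ) : ∃ B X₀ : ℕ, ∀ X : ℕ, X₀ ≤ X → ∀ (a : ℤ) (H : ℕ),
    (X : ℝ) ^ ((1 : ℝ) / 6) * Real.log X ^ B ≤ H → |(a : ℝ)| + H ≤ √X * Real.log X ^ C →
    ∀ q : ℕ, q.Prime → (q : ℝ) ≤ Real.log X ^ C → ∀ u : ℤ, 0 ≤ u → u ≤ 1 →
    ∃ Bad ⊆ Icc (-(X : ℤ)) X, (#Bad : ℝ) ≤ X / Real.log X ^ U ∧
    ∀ c ∈ Icc (-(X : ℤ)) X, c ∉ Bad → ¬ (2 : ℤ) ∣ q * u + c → ¬ (q : ℤ) ∣ c → ∀ f : ℤ → ℤ,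
      (∀ n, f n = ((q : ℤ) * (2 * n + u)) ^ 2 + c) → Formula X B U f a H := by
  obtain ⟨B, X₀, h0⟩ := Run7.h373.QE.Gen.every 2 (by norm_num) U (4 * C + 1)
  obtain ⟨X₁, h1⟩ := Run7.h385.CR.ev_lge 16
  refine ⟨B, X₀ + X₁, fun X hX a H hH hv q hq hqC u hu0 hu1 => ?_⟩
  have hL := h1 X (by omega)
  have hL0 : 0 < Real.log X := by linarith
  have hL1 : 1 ≤ Real.log X := by linarith
  have hX0 : (0 : ℝ) ≤ X := Nat.cast_nonneg _
  have hsX : √(X : ℝ) * √(X : ℝ) = X := Real.mul_self_sqrt hX0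
  have hX1 : (1 : ℝ) ≤ X := by
    by_contra hc
    push Not at hc
    have : X = 0 := by
      have : X < 1 := by exact_mod_cast hc
      omega
    rw [this] at hL
    norm_num at hL
  have hs1 : 1 ≤ √(X : ℝ) := by rw [Real.one_le_sqrt]; exact hX1
  have hq1 : (1 : ℤ) ≤ q := by exact_mod_cast hq.one_le
  have hqr : (0 : ℝ) ≤ q := Nat.cast_nonneg _
  obtain ⟨l, hl⟩ : ∃ l, l = Real.log X ^ C := ⟨_, rfl⟩
  have hl1 : 1 ≤ l := by rw [hl]; exact one_le_pow₀ hL1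
  have hq2 : (q : ℝ) ^ 2 ≤ l ^ 2 := pow_le_pow_left₀ hqr (by rw [hl]; exact hqC) 2
  have hl4 : Real.log X ^ (4 * C + 1) = l ^ 4 * Real.log X := by
    rw [hl, pow_succ, ← pow_mul, mul_comm C 4]
  obtain ⟨Bad, k1, k2, k3⟩ := h0 X (by omega) (Run7.h373.QE.Fam.FQ q u) (Run7.h373.QE.Fam.FQ_deg q u hq1) (by
      rw [Run7.h373.QE.Fam.FQ_lead q u hq1, hl4]
      push_cast
      rw [abs_of_nonneg (by positivity)]
      have h2 : l ^ 2 ≤ l ^ 4 := pow_le_pow_right₀ hl1 (by norm_num)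
      have h3 : (0 : ℝ) ≤ l ^ 4 := by positivity
      nlinarith) a H (by
      refine le_trans (le_of_eq ?_) hH
      norm_num) (by
      intro m hm
      rw [mem_Ioc] at hm
      rw [Run7.h373.QE.Fam.FQ_eval, hl4]
      push_cast
      have hu0' : (0 : ℝ) ≤ u := by exact_mod_cast hu0
      have hu1' : (u : ℝ) ≤ 1 := by exact_mod_cast hu1
      have h2 : |(m : ℝ)| ≤ √X * l := by
        rw [hl]
        refine le_trans ?_ hv
        have h3 : (a : ℝ) ≤ m := by exact_mod_cast hm.1.le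
        have h4 : (m : ℝ) ≤ a + H := by exact_mod_cast hm.2
        have h5 := neg_abs_le (a : ℝ)
        have h6 := le_abs_self (a : ℝ)
        have h7 : (0 : ℝ) ≤ H := Nat.cast_nonneg _
        rw [abs_le]
        constructor <;> linarith
      have hR : 1 ≤ √(X : ℝ) * l := by nlinarith
      have h3 : |2 * (m : ℝ) + u| ≤ 3 * (√X * l) := by
        have h5 := (abs_le.1 h2)
        rw [abs_le]
        constructor <;> linarith
      have h4 : (2 * (m : ℝ) + u) ^ 2 ≤ 9 * (X * l ^ 2) := by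
        rw [← sq_abs]
        calc |2 * (m : ℝ) + u| ^ 2 ≤ (3 * (√X * l)) ^ 2 := pow_le_pow_left₀ (abs_nonneg _) h3 2
          _ = 9 * ((√X * √X) * l ^ 2) := by ring
          _ = 9 * (X * l ^ 2) := by rw [hsX]
      rw [abs_of_nonneg (by positivity), mul_pow]
      calc (q : ℝ) ^ 2 * (2 * (m : ℝ) + u) ^ 2 ≤ l ^ 2 * (9 * (X * l ^ 2)) :=
            mul_le_mul hq2 h4 (by positivity) (by positivity)
        _ = 9 * (X * l ^ 4) := by ring
        _ ≤ Real.log X * (X * l ^ 4) := mul_le_mul_of_nonneg_right (by linarith) (by positivity)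
        _ = X * (l ^ 4 * Real.log X) := by ring)
  refine ⟨Bad, k1, k2, fun c hc hcB h2 h3 f hf z hz1 hz2 => ?_⟩
  obtain ⟨m1, m2⟩ := k3 c hc hcB (fun p hp => by
    obtain ⟨m, hm⟩ := Run7.h373.QE.Fam.adm q hq u c h2 h3 p hp
    exact ⟨m, by rw [Run7.h373.QE.Fam.FQ_eval]; exact hm⟩) z hz1 hz2
  rw [S_eq f q u c z hf, P_eq f q u c _ _ hf, M_eq f q u c _ _ hf]
  exact ⟨m1, m2 1 (Or.inl rfl)⟩

/-- **Primes of the two families in every short window, for all small primes `q` and almost all constants.**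
Let `U, C ≥ 0`. There are `B` and `X₀` such that the following holds for `X ≥ X₀` and for every window `a < n ≤ a + H` with
`X^(1/6) (log X)^B ≤ H` and `|a| + H ≤ √X (log X)^C`. For all but at most `X / (log X)^U` of the integers `|c| ≤ X` and for ALL
primes `q ≤ (log X)^C` which do not divide `c`: if `c` is odd, then the number of the `n` of the window with `(2 q n)² + c` prime
satisfies `Formula`, and if `q + c` is odd, then the number of the `n` of the window with `((2 n + 1) q)² + c` prime does. -/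
theorem result (U C : ℕ) : ∃ B X₀ : ℕ, ∀ X : ℕ, X₀ ≤ X → ∀ (a : ℤ) (H : ℕ),
    (X : ℝ) ^ ((1 : ℝ) / 6) * Real.log X ^ B ≤ H → |(a : ℝ)| + H ≤ √X * Real.log X ^ C →
    ∃ Bad ⊆ Icc (-(X : ℤ)) X, (#Bad : ℝ) ≤ X / Real.log X ^ U ∧
    ∀ c ∈ Icc (-(X : ℤ)) X, c ∉ Bad → ∀ q : ℕ, q.Prime → (q : ℝ) ≤ Real.log X ^ C → ¬ (q : ℤ) ∣ c →
      (¬ (2 : ℤ) ∣ c → Formula X B U (fA q c) a H) ∧ (¬ (2 : ℤ) ∣ q + c → Formula X B U (fB q c) a H) := by
  classical
  obtain ⟨B, X₀, h0⟩ := one (U + C + 1) C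
  obtain ⟨X₁, h1⟩ := Run7.h385.CR.ev_lge 16
  refine ⟨B, X₀ + X₁, fun X hX a H hH hv => ?_⟩
  have hL := h1 X (by omega)
  have hL0 : 0 < Real.log X := by linarith
  have hL1 : 1 ≤ Real.log X := by linarith
  have hX0 : (0 : ℝ) ≤ X := Nat.cast_nonneg _
  have h2 := h0 X (by omega) a H hH hv
  have hA : ∀ q : ℕ, ∃ Bad ⊆ Icc (-(X : ℤ)) X, (#Bad : ℝ) ≤ X / Real.log X ^ (U + C + 1) ∧
      (q.Prime → (q : ℝ) ≤ Real.log X ^ C → ∀ c ∈ Icc (-(X : ℤ)) X, c ∉ Bad → ¬ (2 : ℤ) ∣ q * 0 + c → ¬ (q : ℤ) ∣ c →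
        ∀ f : ℤ → ℤ, (∀ n, f n = ((q : ℤ) * (2 * n + 0)) ^ 2 + c) → Formula X B (U + C + 1) f a H) := by
    intro q
    by_cases hq : q.Prime ∧ (q : ℝ) ≤ Real.log X ^ C
    · obtain ⟨Bad, k1, k2, k3⟩ := h2 q hq.1 hq.2 0 le_rfl (by norm_num)
      exact ⟨Bad, k1, k2, fun _ _ => k3⟩
    · refine ⟨∅, empty_subset _, by rw [card_empty, Nat.cast_zero]; positivity, fun q1 q2 => absurd ⟨q1, q2⟩ hq⟩
  have hB : ∀ q : ℕ, ∃ Bad ⊆ Icc (-(X : ℤ)) X, (#Bad : ℝ) ≤ X / Real.log X ^ (U + C + 1) ∧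
      (q.Prime → (q : ℝ) ≤ Real.log X ^ C → ∀ c ∈ Icc (-(X : ℤ)) X, c ∉ Bad → ¬ (2 : ℤ) ∣ q * 1 + c → ¬ (q : ℤ) ∣ c →
        ∀ f : ℤ → ℤ, (∀ n, f n = ((q : ℤ) * (2 * n + 1)) ^ 2 + c) → Formula X B (U + C + 1) f a H) := by
    intro q
    by_cases hq : q.Prime ∧ (q : ℝ) ≤ Real.log X ^ C
    · obtain ⟨Bad, k1, k2, k3⟩ := h2 q hq.1 hq.2 1 (by norm_num) le_rfl
      exact ⟨Bad, k1, k2, fun _ _ => k3⟩
    · refine ⟨∅, empty_subset _, by rw [card_empty, Nat.cast_zero]; positivity, fun q1 q2 => absurd ⟨q1, q2⟩ hq⟩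
  choose BA a1 a2 a3 using hA
  choose BB b1 b2 b3 using hB
  obtain ⟨Q, hQ⟩ : ∃ Q, Q = ⌊Real.log X ^ C⌋₊ := ⟨_, rfl⟩
  have hQ1 : (Q : ℝ) ≤ Real.log X ^ C := by rw [hQ]; exact Nat.floor_le (by positivity)
  refine ⟨(Icc 1 Q).biUnion (fun q => BA q ∪ BB q), ?_, ?_, ?_⟩
  · intro c hc
    rw [mem_biUnion] at hc
    obtain ⟨q, _, hc⟩ := hc
    rw [mem_union] at hc
    rcases hc with hc | hc
    · exact a1 q hc
    · exact b1 q hc
  · have c1 : #((Icc 1 Q).biUnion (fun q => BA q ∪ BB q)) ≤ ∑ q ∈ Icc 1 Q, (#(BA q) + #(BB q)) :=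
      card_biUnion_le.trans (sum_le_sum fun q _ => card_union_le _ _)
    have c2 : (#((Icc 1 Q).biUnion (fun q => BA q ∪ BB q)) : ℝ) ≤ ∑ q ∈ Icc 1 Q, ((#(BA q) : ℝ) + #(BB q)) := by
      exact_mod_cast c1
    refine c2.trans ?_
    calc ∑ q ∈ Icc 1 Q, ((#(BA q) : ℝ) + #(BB q))
        ≤ ∑ q ∈ Icc 1 Q, (X / Real.log X ^ (U + C + 1) + X / Real.log X ^ (U + C + 1)) :=
          sum_le_sum fun q _ => add_le_add (a2 q) (b2 q)
      _ = Q * (2 * (X / Real.log X ^ (U + C + 1))) := by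
          rw [sum_const, Nat.card_Icc, nsmul_eq_mul, Nat.add_sub_cancel, two_mul]
      _ ≤ Real.log X ^ C * (2 * (X / Real.log X ^ (U + C + 1))) := mul_le_mul_of_nonneg_right hQ1 (by positivity)
      _ = (2 / Real.log X) * (X / Real.log X ^ U) := by
          rw [pow_succ, pow_add]
          field_simp
      _ ≤ 1 * (X / Real.log X ^ U) := by
          apply mul_le_mul_of_nonneg_right _ (by positivity)
          rw [div_le_one hL0]
          linarith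
      _ = X / Real.log X ^ U := one_mul _
  · intro c hc hcB q hq hqC hqc
    have hqQ : q ∈ Icc 1 Q := by
      rw [mem_Icc, hQ]
      exact ⟨hq.one_le, Nat.le_floor hqC⟩
    have hcA : c ∉ BA q := fun h => hcB (mem_biUnion.2 ⟨q, hqQ, mem_union_left _ h⟩)
    have hcB' : c ∉ BB q := fun h => hcB (mem_biUnion.2 ⟨q, hqQ, mem_union_right _ h⟩)
    have key : ∀ f : ℤ → ℤ, Formula X B (U + C + 1) f a H → Formula X B U f a H := by
      intro f hf z hz1 hz2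
      obtain ⟨m1, m2⟩ := hf z hz1 hz2
      refine ⟨m1, m2.trans ?_⟩
      apply div_le_div_of_nonneg_left (by positivity) (by positivity)
      exact pow_le_pow_right₀ hL1 (by omega)
    constructor
    · intro h3
      exact key _ (a3 q hq hqC c hc hcA (by rwa [mul_zero, zero_add]) hqc _ (fA_eq q c))
    · intro h3
      exact key _ (b3 q hq hqC c hc hcB' (by rwa [mul_one]) hqc _ (fB_eq q c))

end Pool.Agent.Results.MP_4b1228_nt.SmallFactorsEveryWindow
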